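import Mathlib
import Pool.Agent.N343.AM.Stm

/-!
Project AM (helper343), FIN: the system (helper667).
-/

set_option autoImplicit false

open Filter Topology Finset

namespace Pool.Agent.N667.AMF

open Pool.Agent.N343.AM

/-- the metric space of the sequences -/
@[reducible] noncomputable def MS : MetricSpace (ℕ → Bool) :=
  PiNat.metricSpace (E := fun _ : ℕ => Bool)

theorem sg_iter (x : ℕ → Bool) (i j : ℕ) : (sg^[i] x) j = x (i + j) := by
  induction i generalizing x with
  | zero => rw [Function.iterate_zero_apply, zero_add]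
  | succ i ih =>
    rw [Function.iterate_succ_apply, ih]
    show x (i + j + 1) = x (i + 1 + j)
    congr 1
    ring

theorem main (hS : S_SYS) (hK : S_CLO) (hM : S_MIN) (hA : S_ASM) (hD : S_DIS) : S_MAIN := by
  obtain ⟨W, P, m, hs⟩ := hS
  obtain ⟨hcl, hinv, ⟨x1, hx1, hx1'⟩, ⟨x0, hx0, hx0'⟩⟩ := hK W P m hs
  have hcomp : CompactSpace {x : ℕ → Bool // x ∈ XX W} := isCompact_iff_compactSpace.1 hcl.isCompact
  let f : {x : ℕ → Bool // x ∈ XX W} → {x : ℕ → Bool // x ∈ XX W} := fun x => ⟨sg x.1, hinv x.1 x.2⟩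
  have hfc : Continuous f := by
    refine Continuous.subtype_mk (continuous_pi fun i => ?_) _
    exact (continuous_apply (i + 1)).comp continuous_subtype_val
  have hfi : ∀ (i : ℕ) (x : {x : ℕ → Bool // x ∈ XX W}), (f^[i] x).1 = sg^[i] x.1 := by
    intro i
    induction i with
    | zero => intro x; rfl
    | succ i ih =>
      intro x
      rw [Function.iterate_succ_apply, Function.iterate_succ_apply, ih]
  have hne : Nontrivial {x : ℕ → Bool // x ∈ XX W} := by
    refine ⟨⟨x1, hx1⟩, ⟨x0, hx0⟩, fun h => ?_⟩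
    have h1 : x1 0 = x0 0 := congrFun (congrArg Subtype.val h) 0
    rw [hx1', hx0'] at h1
    exact absurd h1 (by decide)
  refine ⟨{x : ℕ → Bool // x ∈ XX W}, @Subtype.metricSpace (ℕ → Bool) (fun x => x ∈ XX W) MS, hcomp,
    f, hfc, ?_, hne, ?_⟩
  · intro K hKc hKn hKi
    letI := @Subtype.metricSpace (ℕ → Bool) (fun x => x ∈ XX W) MS
    rw [Set.eq_univ_iff_forall]
    intro x'
    obtain ⟨x, hx⟩ := hKn
    have hmem : ∀ i : ℕ, f^[i] x ∈ K := by
      intro i
      induction i with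
      | zero => exact hx
      | succ i ih =>
        rw [Function.iterate_succ_apply']
        exact hKi _ ih
    rw [← hKc.closure_eq]
    refine Metric.mem_closure_iff.2 fun ε hε => ?_
    obtain ⟨n, hn⟩ := exists_pow_lt_of_lt_one hε (show (1 / 2 : ℝ) < 1 by norm_num)
    obtain ⟨i, hi⟩ := hM W P m hs x.1 x.2 x'.1 x'.2 n
    refine ⟨f^[i] x, hmem i, lt_of_le_of_lt ?_ hn⟩
    refine hD.2.1 x'.1 (f^[i] x).1 n fun j hj => ?_
    rw [hfi, sg_iter]
    exact (hi j hj).symm
  · intro ε hε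
    letI := @Subtype.metricSpace (ℕ → Bool) (fun x => x ∈ XX W) MS
    obtain ⟨δ, hδ, H⟩ := hA W P m hs ε hε
    refine ⟨δ, hδ, fun x hx => ?_⟩
    obtain ⟨N, -, hN⟩ := hx
    obtain ⟨y, hy, N', hN'⟩ := H (fun i => (x i).1) (fun i => (x i).2) ⟨N, fun n hn => hN n hn 0⟩
    refine ⟨⟨y, hy⟩, lt_of_le_of_lt ?_ (half_lt_self hε)⟩
    have e : ∀ i, dist (f^[i] ⟨y, hy⟩) (x i) = dd (sg^[i] y) (x i).1 := by
      intro i
      have h1 := hfi i ⟨y, hy⟩
      have h2 : dist (f^[i] ⟨y, hy⟩) (x i) = dd (f^[i] ⟨y, hy⟩).1 (x i).1 := rfl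
      rw [h2, h1]
    refine Filter.limsup_le_of_le ?_ ?_
    · have hb : IsBoundedUnder (· ≥ ·) atTop
          (fun n : ℕ => (∑ i ∈ range n, dist (f^[i] ⟨y, hy⟩) (x i)) / (n : ℝ)) :=
        isBoundedUnder_of ⟨0, fun n => div_nonneg (Finset.sum_nonneg fun i _ => dist_nonneg)
          (Nat.cast_nonneg n)⟩
      exact hb.isCoboundedUnder_le
    · refine eventually_atTop.2 ⟨N', fun n hn => ?_⟩
      simp only [e]
      exact hN' n hn

end Pool.Agent.N667.AMF
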